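import Pool.Agent.H13.LD2.Defs
import Pool.Agent.H13.LD2.Conv

/-!
# Linear dimension of primitive actions of symmetric groups
-/

set_option autoImplicit false

namespace Pool.Agent.Results.MP_bfdf54_al.HalvingActions

universe u

open Pool.MP_bfdf54_al

/-- The question has a negative answer: for every prime `p`, the lower bound `(n² - 3n)/2` fails
over all fields of characteristic `p` at once, for infinitely many `n`. -/
theorem result :
    (∀ n : ℕ, Even n → 6 ≤ n →
      ∃ (Ω : Type) (a : Equiv.Perm (Fin n) →* Equiv.Perm Ω), Admissible a ∧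
        (∀ (F : Type u) [Field F], (2 : F) = 0 → (lindim F a : ℝ) ≤ n - 1) ∧
        (∀ (F : Type u) [Field F] (p : ℕ), p.Prime → p ≠ 2 → (p : F) = 0 → p ∣ n - 2 →
          (lindim F a : ℝ) ≤ ((n : ℝ) ^ 2 - 5 * n + 2) / 2)) ∧
    (∀ p : ℕ, p.Prime → ∀ n₀ : ℕ, ∃ n : ℕ, n₀ ≤ n ∧
      ∃ (Ω : Type) (a : Equiv.Perm (Fin n) →* Equiv.Perm Ω), Admissible a ∧
        ∀ (F : Type u) [Field F], (p : F) = 0 → (lindim F a : ℝ) < ((n : ℝ) ^ 2 - 3 * n) / 2) ∧
    ¬ Question.{u} :=
  Conv.main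

end Pool.Agent.Results.MP_bfdf54_al.HalvingActions
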